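import Pool.Agent.Lib.MP_b43024_an.Final

/-!
# The bounded solutions of `x (n+1) = 2 x (n-2) / (1 + x n + x (n-1))`

The indices are shifted by two: the initial values are `x 0, x 1, x 2`.  `IsSol x` says that `x` is a
solution with positive terms, `BoundedSet` is the set of all positive triples `(x 0, x 1, x 2)` whose
solution is bounded.  `T (x, y, z) = (y, z, 2 x / (1 + y + z))` is the map of the recurrence and
`G (x, y, z) = (z (1 + x + y) / 2, x, y)` its inverse.

The set is the disjoint union of a curve `c` (the solutions which converge to `1/2`; these are exactly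
the monotone solutions) and of three surfaces `S`, `T S`, `T T S` (the solutions which converge to the
three-cycle `0, 1, 1`).  The curve and the surface are parametrised by limits of explicit polynomials.
There are also two criteria: the solution is bounded if and only if `x (n+2) < 1` or
`x n + x (n+1) ≥ 1` for all `n`, and if and only if `V < 1` along the solution, where
`V = x + y + z - x y - y z - x z` is nondecreasing.  In an unbounded solution one of the three
subsequences tends to infinity and the two others tend to zero.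
-/

set_option autoImplicit false

open Filter Topology Set Pool.Agent.Lib.MP_b43024_an

namespace Pool.Agent.Results.MP_b43024_an.BoundedSet

/-- The set of all positive initial triples with bounded solution. -/
theorem result :
    ∃ (lam eta : ℝ) (c : ℝ → ℝ × ℝ × ℝ) (S : ℝ × ℝ → ℝ × ℝ × ℝ),
      (0 < lam ∧ 4 * lam ^ 3 + lam ^ 2 + lam = 4 ∧ eta = (√17 - 1) / 4) ∧
      -- the curve
      (∀ t : ℝ, Tendsto (fun n : ℕ => G^[n] (1 / 2 + lam ^ n * t, 1 / 2 + lam ^ (n + 1) * t,
        1 / 2 + lam ^ (n + 2) * t)) atTop (𝓝 (c t))) ∧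
      (Continuous c ∧
        (∀ t t' : ℝ, t < t' →
          (c t).1 < (c t').1 ∧ (c t).2.1 < (c t').2.1 ∧ (c t).2.2 < (c t').2.2) ∧
        ∀ a : ℝ, 0 < a → ∃! t, (c t).1 = a) ∧
      -- the surface
      (∀ s t : ℝ, Tendsto (fun n : ℕ => G^[3 * n] ((2 / 3) ^ n * s,
        1 - 5 * ((2 / 3) ^ n * s) + eta ^ (2 * n) * t,
        1 - 4 * ((2 / 3) ^ n * s) + eta ^ (2 * n + 1) * t)) atTop (𝓝 (S (s, t)))) ∧
      (Continuous S ∧ InjOn S {w | 0 < w.1}) ∧
      -- the set
      BoundedSet = range c ∪ S '' {w | 0 < w.1} ∪ T '' (S '' {w | 0 < w.1}) ∪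
        T '' (T '' (S '' {w | 0 < w.1})) ∧
      (Disjoint (range c) (S '' {w | 0 < w.1}) ∧
        Disjoint (range c) (T '' (S '' {w | 0 < w.1})) ∧
        Disjoint (range c) (T '' (T '' (S '' {w | 0 < w.1}))) ∧
        Disjoint (S '' {w | 0 < w.1}) (T '' (S '' {w | 0 < w.1})) ∧
        Disjoint (S '' {w | 0 < w.1}) (T '' (T '' (S '' {w | 0 < w.1}))) ∧
        Disjoint (T '' (S '' {w | 0 < w.1})) (T '' (T '' (S '' {w | 0 < w.1})))) ∧
      -- the solutions
      ∀ x : ℕ → ℝ, IsSol x →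
        ((∃ C, ∀ n, x n ≤ C) ↔ ∀ n, x (n + 2) < 1 ∨ 1 ≤ x (n + 1) + x n) ∧
        (((∃ C, ∀ n, x n ≤ C) ↔ ∀ n, V x n < 1) ∧ Monotone (V x)) ∧
        ((x 0, x 1, x 2) ∈ range c ↔ Monotone x ∨ Antitone x) ∧
        (∀ t : ℝ, (x 0, x 1, x 2) = c t →
          (∀ n, (x n, x (n + 1), x (n + 2)) = c (lam ^ n * t)) ∧
          Tendsto x atTop (𝓝 (1 / 2)) ∧
          Tendsto (fun n => (x n - 1 / 2) / lam ^ n) atTop (𝓝 t)) ∧
        (∀ s t : ℝ, 0 < s → (x 0, x 1, x 2) = S (s, t) →
          (∀ n, (x (3 * n), x (3 * n + 1), x (3 * n + 2)) =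
            S ((2 / 3) ^ n * s, eta ^ (2 * n) * t)) ∧
          Tendsto (fun n => x (3 * n)) atTop (𝓝 0) ∧
          Tendsto (fun n => x (3 * n + 1)) atTop (𝓝 1) ∧
          Tendsto (fun n => x (3 * n + 2)) atTop (𝓝 1) ∧
          Tendsto (fun n => x (3 * n) / (2 / 3) ^ n) atTop (𝓝 s) ∧
          Tendsto (fun n => (x (3 * n + 1) - 1 + 5 * x (3 * n)) / eta ^ (2 * n)) atTop (𝓝 t)) ∧
        ((¬ ∃ C, ∀ n, x n ≤ C) → ∃ j < 3, Tendsto (fun n => x (3 * n + j)) atTop atTop ∧
          Tendsto (fun n => x (3 * n + j + 1)) atTop (𝓝 0) ∧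
          Tendsto (fun n => x (3 * n + j + 2)) atTop (𝓝 0)) := by
  obtain ⟨P⟩ := exists_par
  refine ⟨P.l, Surf.eta, Curve.c P, Surf.S, ⟨P.l0, P.eq, rfl⟩, Curve.c_lim P,
    ⟨Curve.c_continuous P, fun t t' h => ?_, fun a ha => ?_⟩, fun s t => ?_,
    ⟨Surf.S_continuous, fun w hw w' hw' h => Surf.S_inj hw hw' h⟩, boundedSet_eq P, disj P,
    fun x h => ⟨h.bounded_iff, ⟨h.bounded_iff_V, h.V_mono⟩, monotone_iff P h,
      fun t ht => sol_c P h ht, fun s t hs ht => sol_S h hs ht, fun hu => h.unbounded hu⟩⟩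
  · rw [Curve.c_eq P t, Curve.c_eq P t']
    have h0 := P.l0
    have hf := Curve.f_strictMono P
    exact ⟨hf h, hf (mul_lt_mul_of_pos_left h h0), hf (mul_lt_mul_of_pos_left h (by positivity))⟩
  · obtain ⟨t, ht⟩ := Curve.f_surj P ha
    exact ⟨t, ht, fun t' ht' => (Curve.f_strictMono P).injective (ht'.trans ht.symm)⟩
  · have h1 := Surf.S_lim (s, t)
    refine h1.congr fun n => ?_
    rw [Surf.G3it]

end Pool.Agent.Results.MP_b43024_an.BoundedSet
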